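import Pool.Agent.R901.CA.Group

/-!
# Closed oriented aspherical manifolds, their fundamental groups and circle actions (helper901)
-/

set_option autoImplicit false

namespace Pool.Agent.R901.CA

universe u

/-- An extension `1 → ℤ → E → P → 1` with central image of `ℤ`: a surjective homomorphism whose kernel is
generated by a central element of infinite order. -/
def IsCentralExtension {E P : Type} [Group E] [Group P] (q : E →* P) : Prop :=
  Function.Surjective q ∧ ∃ z : E, q.ker = Subgroup.zpowers z ∧ (∀ g : E, z * g = g * z) ∧
    ∀ n : ℕ, n ≠ 0 → z ^ n ≠ 1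

/-- The subgroup `ℤ × 0` of `ℤ × ℤ` (written multiplicatively). -/
def lineOne : Subgroup (Multiplicative ℤ × Multiplicative ℤ) :=
  (MonoidHom.inl (Multiplicative ℤ) (Multiplicative ℤ)).range

/-- The homomorphism `ℤ → ℤ × ℤ`, `n ↦ (2 n, 0)` (written multiplicatively). -/
def doubleHom : Multiplicative ℤ →* Multiplicative ℤ × Multiplicative ℤ :=
  (MonoidHom.inl (Multiplicative ℤ) (Multiplicative ℤ)).comp (powMonoidHom 2)

lemma inl_injective :
    Function.Injective (MonoidHom.inl (Multiplicative ℤ) (Multiplicative ℤ)) := fun x y h => by
  simpa using congrArg Prod.fst h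

lemma doubleHom_injective : Function.Injective doubleHom := fun x y h => by
  have h1 : x ^ 2 = y ^ 2 := by simpa [doubleHom] using congrArg Prod.fst h
  have h2 : 2 * Multiplicative.toAdd x = 2 * Multiplicative.toAdd y := by
    have := congrArg Multiplicative.toAdd h1
    simpa using this
  have h3 : Multiplicative.toAdd x = Multiplicative.toAdd y := by omega
  exact h3

/-- The isomorphism `(n, 0) ↦ (2 n, 0)` of `ℤ × 0` onto `2ℤ × 0`. -/
noncomputable def doubling : lineOne ≃* doubleHom.range :=
  (MonoidHom.ofInjective inl_injective).symm.trans (MonoidHom.ofInjective doubleHom_injective)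

lemma doubling_apply (x : Multiplicative ℤ) (h : (x, (1 : Multiplicative ℤ)) ∈ lineOne) :
    (doubling ⟨(x, 1), h⟩ : Multiplicative ℤ × Multiplicative ℤ) = (x ^ 2, 1) := by
  have h1 : (⟨(x, 1), h⟩ : lineOne) = MonoidHom.ofInjective inl_injective x := Subtype.ext rfl
  rw [h1]
  show ((MonoidHom.ofInjective doubleHom_injective)
    ((MonoidHom.ofInjective inl_injective).symm (MonoidHom.ofInjective inl_injective x)) :
      Multiplicative ℤ × Multiplicative ℤ) = _
  rw [MulEquiv.symm_apply_apply]
  rfl

/-- Closed connected oriented aspherical topological manifolds, and the facts about them which are used.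
-/
structure Manifolds where
  /-- The closed connected oriented aspherical manifolds, with base points. -/
  Mfd : Type u
  /-- The fundamental group. -/
  π : Mfd → Type
  [grp : ∀ M, Group (π M)]
  /-- `Realised M H g`: some principal `S¹`-action on the covering of `M` with the fundamental group `H`
  realises `g`. -/
  Realised : ∀ (M : Mfd) (_ : Subgroup (π M)), π M → Prop
  /-- If a principal `S¹`-action on a finite covering `N` of `M` realises `g`, then `N / S¹` is an aspherical
  ANR of finite dimension with the fundamental group `π₁(N) / ⟨g⟩`; so this group is torsion-free. -/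
  realised_torsionFree : ∀ {M : Mfd} {H : Subgroup (π M)} [H.FiniteIndex] {g : π M}, g ∈ H →
    Realised M H g → ∀ h ∈ H, ∀ n : ℕ, n ≠ 0 → h ^ n ∈ Subgroup.zpowers g →
      h ∈ Subgroup.zpowers g
  /-- The groups with a finite classifying complex. -/
  FiniteType : ∀ (G : Type) [Group G], Prop
  /-- `ℤ`: the circle. -/
  finiteType_int : FiniteType (Multiplicative ℤ)
  /-- Isomorphic groups. -/
  finiteType_congr : ∀ {G G' : Type} [Group G] [Group G'], G ≃* G' → FiniteType G → FiniteType G'
  /-- Products. -/
  finiteType_prod : ∀ {G G' : Type} [Group G] [Group G'], FiniteType G → FiniteType G' →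
    FiniteType (G × G')
  /-- HNN extensions (the mapping cylinder of the two inclusions of the associated subgroup). -/
  finiteType_hnn : ∀ {G : Type} [Group G] (A B : Subgroup G) (φ : A ≃* B), FiniteType G →
    FiniteType A → FiniteType (HNNExtension G A B φ)
  /-- Davis: every group with a finite classifying complex is a retract of the fundamental group of a
  closed oriented aspherical manifold. -/
  davis : ∀ {G : Type} [Group G], FiniteType G → ∃ (M : Mfd) (i : G →* π M) (r : π M →* G),
    ∀ x, r (i x) = x
  /-- A central extension of `π₁(M)` by `ℤ` is the fundamental group of the principal circle bundle over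
  `M` with this Euler class; it is a closed oriented aspherical manifold. -/
  circleBundle : ∀ (M : Mfd) {E : Type} [Group E] (q : E →* π M), IsCentralExtension q →
    ∃ M' : Mfd, Nonempty (E ≃* π M')

attribute [instance] Manifolds.grp

/-- The group `⟨a, b, s | [a, b] = 1, s a s⁻¹ = a²⟩` as an HNN extension of `ℤ × ℤ`. -/
abbrev BaseGroup : Type :=
  HNNExtension (Multiplicative ℤ × Multiplicative ℤ) lineOne doubleHom.range doubling

namespace Manifolds

variable (𝒯 : Manifolds.{u})

lemma finiteType_base : 𝒯.FiniteType BaseGroup :=
  𝒯.finiteType_hnn _ _ _ (𝒯.finiteType_prod 𝒯.finiteType_int 𝒯.finiteType_int)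
    (𝒯.finiteType_congr (MonoidHom.ofInjective inl_injective) 𝒯.finiteType_int)

end Manifolds

end Pool.Agent.R901.CA
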