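import Mathlib

/-!
# A central element which is a member of every subgroup of finite index containing its square (helper901)
-/

set_option autoImplicit false

namespace Pool.Agent.R901.CA

/-- The relations `[a, b] = z`, `z` central, `s a s⁻¹ = a²`. -/
structure Rel {G : Type*} [Group G] (a b s z : G) : Prop where
  comm : a * b = z * (b * a)
  central : ∀ g : G, z * g = g * z
  conj : s * a * s⁻¹ = a ^ 2

variable {G : Type*} [Group G] {a b s z : G}

lemma Rel.map {G' : Type*} [Group G'] (h : Rel a b s z) (f : G →* G') (hf : Function.Surjective f) :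
    Rel (f a) (f b) (f s) (f z) where
  comm := by rw [← map_mul, h.comm, map_mul, map_mul]
  central g := by
    obtain ⟨g, rfl⟩ := hf g
    rw [← map_mul, h.central, map_mul]
  conj := by rw [← map_mul, ← map_inv, ← map_mul, h.conj, map_pow]

lemma Rel.comm_pow (h : Rel a b s z) (n : ℕ) : a ^ n * b = z ^ n * (b * a ^ n) := by
  induction n with
  | zero => simp
  | succ n ih =>
    have hz : ∀ g : G, z ^ n * g = g * z ^ n := fun g =>
      ((show Commute z g from h.central g).pow_left n).eq
    calc a ^ (n + 1) * b = a * (a ^ n * b) := by rw [pow_succ', mul_assoc]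
      _ = a * (z ^ n * (b * a ^ n)) := by rw [ih]
      _ = z ^ n * (a * b * a ^ n) := by rw [← mul_assoc a, ← hz a]; simp only [mul_assoc]
      _ = z ^ n * (z * (b * a) * a ^ n) := by rw [h.comm]
      _ = z ^ (n + 1) * (b * a ^ (n + 1)) := by
          rw [pow_succ z, pow_succ' a]; simp only [mul_assoc]

/-- In a finite group, `z` has odd order. -/
lemma Rel.odd_order [Finite G] (h : Rel a b s z) : ∃ n : ℕ, Odd n ∧ z ^ n = 1 := by
  refine ⟨orderOf a, ?_, ?_⟩
  · have h1 : orderOf (a ^ 2) = orderOf a := by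
      rw [← h.conj]
      exact orderOf_injective (MulAut.conj s).toMonoidHom (MulAut.conj s).injective a
    have h2 : 0 < orderOf a := orderOf_pos a
    rw [orderOf_pow' a two_ne_zero] at h1
    have h3 : (orderOf a).gcd 2 = 1 := by
      by_contra hne
      have hpos : 0 < (orderOf a).gcd 2 := Nat.gcd_pos_of_pos_left _ h2
      have : orderOf a / (orderOf a).gcd 2 < orderOf a := Nat.div_lt_self h2 (by omega)
      omega
    exact Nat.coprime_two_right.1 h3
  · have h1 := h.comm_pow (orderOf a)
    rw [pow_orderOf_eq_one] at h1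
    simp only [one_mul, mul_one] at h1
    exact mul_right_cancel (h1.symm.trans (one_mul b).symm)

/-- A subgroup of finite index which contains `z²` contains `z`. -/
theorem Rel.mem_of_sq_mem (h : Rel a b s z) (H : Subgroup G) [H.FiniteIndex] (hz : z ^ 2 ∈ H) :
    z ∈ H := by
  have h1 : Rel (QuotientGroup.mk' H.normalCore a) (QuotientGroup.mk' H.normalCore b)
      (QuotientGroup.mk' H.normalCore s) (QuotientGroup.mk' H.normalCore z) :=
    h.map _ (QuotientGroup.mk'_surjective _)
  have : Finite (G ⧸ H.normalCore) := Subgroup.finite_quotient_of_finiteIndex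
  obtain ⟨n, ⟨m, hm⟩, hn⟩ := h1.odd_order
  rw [← map_pow] at hn
  have h2 : z ^ n ∈ H := H.normalCore_le ((QuotientGroup.eq_one_iff _).1 hn)
  have h3 : z ^ n * ((z ^ 2) ^ m)⁻¹ ∈ H := H.mul_mem h2 (H.inv_mem (H.pow_mem hz m))
  have h4 : z ^ n * ((z ^ 2) ^ m)⁻¹ = z := by
    rw [hm, ← pow_mul, pow_succ', mul_assoc, mul_inv_cancel, mul_one]
  rwa [h4] at h3

open Matrix

/-- The unipotent matrix with entries `x`, `y`, `w`, as an invertible matrix. -/
def unip (x y w : ℚ) : GL (Fin 3) ℚ where
  val := !![1, x, w; 0, 1, y; 0, 0, 1]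
  inv := !![1, -x, x * y - w; 0, 1, -y; 0, 0, 1]
  val_inv := by
    ext i j
    fin_cases i <;> fin_cases j <;> simp [Matrix.mul_apply, Fin.sum_univ_three]
    ring
  inv_val := by
    ext i j
    fin_cases i <;> fin_cases j <;> simp [Matrix.mul_apply, Fin.sum_univ_three]
    ring

/-- The diagonal matrix with the entries `2, 1, 2`. -/
def diag : GL (Fin 3) ℚ where
  val := !![2, 0, 0; 0, 1, 0; 0, 0, 2]
  inv := !![1/2, 0, 0; 0, 1, 0; 0, 0, 1/2]
  val_inv := by
    ext i j; fin_cases i <;> fin_cases j <;> simp [Matrix.mul_apply, Fin.sum_univ_three]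
  inv_val := by
    ext i j; fin_cases i <;> fin_cases j <;> simp [Matrix.mul_apply, Fin.sum_univ_three]

lemma unip_mul (x y w x' y' w' : ℚ) :
    unip x y w * unip x' y' w' = unip (x + x') (y + y') (w + w' + x * y') := by
  apply Units.ext
  ext i j
  fin_cases i <;> fin_cases j <;>
    simp [unip, Matrix.mul_apply, Fin.sum_univ_three, Matrix.GeneralLinearGroup] <;> ring

lemma unip_pow (w : ℚ) (n : ℕ) : unip 0 0 w ^ n = unip 0 0 (n * w) := by
  induction n with
  | zero =>
    apply Units.ext
    ext i j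
    fin_cases i <;> fin_cases j <;> simp [unip]
  | succ n ih =>
    rw [pow_succ, ih, unip_mul]
    congr 1 <;> push_cast <;> ring

/-- There is a group with elements which satisfy the relations, such that `z` has infinite order. -/
theorem exists_rel : ∃ (T : Type) (_ : Group T) (a b s z : T), Rel a b s z ∧
    ∀ n : ℕ, n ≠ 0 → z ^ n ≠ 1 := by
  let Z : GL (Fin 3) ℚ := unip 0 0 1
  have ha : Z * unip 1 0 0 = unip 1 0 0 * Z := by
    show unip 0 0 1 * unip 1 0 0 = unip 1 0 0 * unip 0 0 1
    rw [unip_mul, unip_mul]; congr 1 <;> norm_num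
  have hb : Z * unip 0 1 0 = unip 0 1 0 * Z := by
    show unip 0 0 1 * unip 0 1 0 = unip 0 1 0 * unip 0 0 1
    rw [unip_mul, unip_mul]; congr 1 <;> norm_num
  have hs : Z * diag = diag * Z := by
    apply Units.ext
    ext i j
    fin_cases i <;> fin_cases j <;> simp [Z, unip, diag, Matrix.mul_apply, Fin.sum_univ_three]
  have hz : Z ∈ Subgroup.centralizer {Z} := by
    rw [Subgroup.mem_centralizer_singleton_iff]
  have mem : ∀ g : GL (Fin 3) ℚ, Z * g = g * Z → g ∈ Subgroup.centralizer {Z} := by
    intro g hg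
    rw [Subgroup.mem_centralizer_singleton_iff]
    first
      | exact hg
      | exact hg.symm
  refine ⟨Subgroup.centralizer {Z}, inferInstance, ⟨_, mem _ ha⟩, ⟨_, mem _ hb⟩, ⟨_, mem _ hs⟩,
    ⟨Z, hz⟩, ⟨?_, ?_, ?_⟩, ?_⟩
  · apply Subtype.ext
    show unip 1 0 0 * unip 0 1 0 = unip 0 0 1 * (unip 0 1 0 * unip 1 0 0)
    rw [unip_mul, unip_mul, unip_mul]; congr 1 <;> norm_num
  · rintro ⟨g, hg⟩
    apply Subtype.ext
    have := Subgroup.mem_centralizer_singleton_iff.1 hg
    first
      | exact this
      | exact this.symm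
  · apply Subtype.ext
    show diag * unip 1 0 0 * diag⁻¹ = unip 1 0 0 ^ 2
    rw [mul_inv_eq_iff_eq_mul, pow_two, unip_mul]
    apply Units.ext
    ext i j
    fin_cases i <;> fin_cases j <;> simp [unip, diag, Matrix.mul_apply, Fin.sum_univ_three]
    norm_num
  · intro n hn h
    have h1 := congrArg Subtype.val h
    have h2 : unip 0 0 1 ^ n = (1 : GL (Fin 3) ℚ) := h1
    rw [unip_pow] at h2
    have h3 := congrArg (fun g : GL (Fin 3) ℚ => (g : Matrix (Fin 3) (Fin 3) ℚ) 0 2) h2
    simp [unip] at h3
    exact hn h3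

end Pool.Agent.R901.CA
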