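import Pool.Agent.R901.CA.Data

/-!
# The manifold and the central element (helper901)
-/

set_option autoImplicit false

namespace Pool.Agent.R901.CA

universe u

section Lift

variable {T : Type} [Group T] {a b s z : T}

/-- The generators of `ℤ × ℤ`. -/
def ga : Multiplicative ℤ × Multiplicative ℤ := (Multiplicative.ofAdd 1, 1)

/-- The second generator. -/
def gb : Multiplicative ℤ × Multiplicative ℤ := (1, Multiplicative.ofAdd 1)

/-- The homomorphism of `BaseGroup` to `Q`, if `a`, `b` commute in `Q` and `s a s⁻¹ = a²`. -/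
theorem exists_hom {Q : Type} [Group Q] (a b s : Q) (hab : a * b = b * a)
    (hs : s * a * s⁻¹ = a ^ 2) : ∃ f : BaseGroup →* Q,
      f (HNNExtension.of ga) = a ∧ f (HNNExtension.of gb) = b ∧ f HNNExtension.t = s := by
  have hcomm : ∀ m n, Commute (zpowersHom Q a m) (zpowersHom Q b n) := by
    intro m n
    rw [zpowersHom_apply, zpowersHom_apply]
    exact (show Commute a b from hab).zpow_zpow _ _
  let F : Multiplicative ℤ × Multiplicative ℤ →* Q :=
    MonoidHom.noncommCoprod (zpowersHom Q a) (zpowersHom Q b) hcomm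
  have hF : ∀ m : Multiplicative ℤ, F (m, 1) = a ^ (Multiplicative.toAdd m) := by
    intro m
    show zpowersHom Q a m * zpowersHom Q b 1 = _
    rw [map_one, mul_one, zpowersHom_apply]
  have hx : ∀ x : lineOne, s * F ↑x = F (doubling x : Multiplicative ℤ × Multiplicative ℤ) * s := by
    rintro ⟨x, m, rfl⟩
    show s * F (m, 1) = F (doubling ⟨(m, 1), _⟩ : Multiplicative ℤ × Multiplicative ℤ) * s
    rw [doubling_apply, hF, hF]
    have h1 : s * a ^ (Multiplicative.toAdd m) * s⁻¹ = (a ^ 2) ^ (Multiplicative.toAdd m) := by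
      rw [← hs, conj_zpow]
    rw [toAdd_pow, ← mul_inv_eq_iff_eq_mul, h1, ← zpow_natCast a 2, ← zpow_mul]
    simp
  refine ⟨HNNExtension.lift F s hx, ?_, ?_, ?_⟩
  · rw [HNNExtension.lift_of]
    show F (Multiplicative.ofAdd 1, 1) = a
    rw [hF]
    simp
  · rw [HNNExtension.lift_of]
    show zpowersHom Q a 1 * zpowersHom Q b (Multiplicative.ofAdd 1) = b
    rw [map_one, one_mul, zpowersHom_apply]
    simp
  · rw [HNNExtension.lift_t]

lemma base_comm : (HNNExtension.of ga : BaseGroup) * HNNExtension.of gb =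
    HNNExtension.of gb * HNNExtension.of ga := by
  rw [← map_mul, ← map_mul, mul_comm]

lemma base_conj : (HNNExtension.t : BaseGroup) * HNNExtension.of ga * HNNExtension.t⁻¹ =
    HNNExtension.of ga ^ 2 := by
  have hmem : ga ∈ lineOne := ⟨Multiplicative.ofAdd 1, rfl⟩
  have h1 := HNNExtension.t_mul_of (φ := doubling) ⟨ga, hmem⟩
  rw [mul_inv_eq_iff_eq_mul]
  refine h1.trans ?_
  congr 1
  rw [← map_pow]
  congr 1
  exact doubling_apply (Multiplicative.ofAdd 1) hmem

end Lift

lemma not_mem_zpowers_sq {G : Type*} [Group G] {z : G} (hz : ∀ n : ℕ, n ≠ 0 → z ^ n ≠ 1) :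
    z ∉ Subgroup.zpowers (z ^ 2) := by
  rintro ⟨k, hk⟩
  have h1 : z ^ (2 * k - 1) = 1 := by
    have h2 : (z ^ 2) ^ k = z := hk
    rw [zpow_sub_one, mul_inv_eq_one, zpow_mul]
    simpa using h2
  have h2 : z ^ (2 * k - 1).natAbs = 1 := by
    rcases Int.natAbs_eq (2 * k - 1) with h | h
    · rw [h, zpow_natCast] at h1
      exact h1
    · rw [h, zpow_neg, inv_eq_one, zpow_natCast] at h1
      exact h1
  exact hz _ (by omega) h2

/-- There are a closed oriented aspherical manifold `M` and a central element `z` of infinite order such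
that `z` is a member of each subgroup of finite index which contains `z²`, and `z²` is not realised by a
principal `S¹`-action on a finite covering of `M`. -/
theorem exists_manifold (𝒯 : Manifolds.{u}) : ∃ (M : 𝒯.Mfd) (z : 𝒯.π M),
    (∀ x, z * x = x * z) ∧ (∀ n : ℕ, n ≠ 0 → z ^ n ≠ 1) ∧
    (∀ H : Subgroup (𝒯.π M), H.FiniteIndex → z ^ 2 ∈ H → z ∈ H) ∧
    ∀ H : Subgroup (𝒯.π M), H.FiniteIndex → z ^ 2 ∈ H → ¬ 𝒯.Realised M H (z ^ 2) := by
  obtain ⟨N, i, r, hri⟩ := 𝒯.davis 𝒯.finiteType_base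
  obtain ⟨T, _, a, b, s, z, hrel, hz⟩ := exists_rel
  have hnormal : (Subgroup.zpowers z).Normal := by
    refine ⟨?_⟩
    rintro _ ⟨k, rfl⟩ g
    have h1 : g * z ^ k * g⁻¹ = z ^ k := by
      have : Commute (z ^ k) g := (show Commute z g from hrel.central g).zpow_left k
      rw [← this.eq, mul_assoc, mul_inv_cancel, mul_one]
    show g * z ^ k * g⁻¹ ∈ Subgroup.zpowers z
    rw [h1]
    exact ⟨k, rfl⟩
  let p : T →* T ⧸ Subgroup.zpowers z := QuotientGroup.mk' _
  have hp : ∀ t, p t = 1 ↔ t ∈ Subgroup.zpowers z := fun t => QuotientGroup.eq_one_iff t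
  have hpz : p z = 1 := (hp z).2 (Subgroup.mem_zpowers z)
  obtain ⟨f, hfa, hfb, hfs⟩ := exists_hom (p a) (p b) (p s)
    (by rw [← map_mul, hrel.comm, map_mul, hpz, one_mul, map_mul])
    (by rw [← map_inv, ← map_mul, ← map_mul, hrel.conj, map_pow])
  let E : Subgroup (𝒯.π N × T) :=
    ((f.comp r).comp (MonoidHom.fst (𝒯.π N) T)).eqLocus (p.comp (MonoidHom.snd (𝒯.π N) T))
  have hE : ∀ x : 𝒯.π N × T, x ∈ E ↔ f (r x.1) = p x.2 := fun x => Iff.rfl
  let q : E →* 𝒯.π N := (MonoidHom.fst (𝒯.π N) T).comp E.subtype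
  let Z : E := ⟨(1, z), by rw [hE]; simp [hpz]⟩
  have hZc : ∀ g : E, Z * g = g * Z := by
    rintro ⟨⟨x, t⟩, h⟩
    apply Subtype.ext
    show ((1 : 𝒯.π N) * x, z * t) = (x * 1, t * z)
    rw [one_mul, mul_one, hrel.central t]
  have hZn : ∀ n : ℕ, n ≠ 0 → Z ^ n ≠ 1 := by
    intro n hn h
    have h1 := congrArg (fun g : E => g.1.2) h
    exact hz n hn h1
  have hq : IsCentralExtension q := by
    refine ⟨?_, Z, ?_, hZc, hZn⟩
    · intro x
      obtain ⟨t, ht⟩ := QuotientGroup.mk'_surjective (Subgroup.zpowers z) (f (r x))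
      exact ⟨⟨(x, t), by rw [hE]; exact ht.symm⟩, rfl⟩
    · ext ⟨⟨x, t⟩, h⟩
      constructor
      · intro hx
        have hx1 : x = 1 := hx
        subst hx1
        rw [hE] at h
        simp only [map_one] at h
        obtain ⟨k, hk⟩ := (hp t).1 h.symm
        refine ⟨k, ?_⟩
        apply Subtype.ext
        have h1 : ((Z ^ k : E) : 𝒯.π N × T) = (1, z) ^ k := by
          rw [Subgroup.coe_zpow]
        show ((Z ^ k : E) : 𝒯.π N × T) = (1, t)
        rw [h1]
        refine Prod.ext ?_ ?_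
        · show (1 : 𝒯.π N) ^ k = 1
          rw [one_zpow]
        · exact hk
      · rintro ⟨k, hk⟩
        have h1 := congrArg (fun g : E => g.1.1) hk
        have h2 : ((Z ^ k : E) : 𝒯.π N × T).1 = 1 := by
          rw [Subgroup.coe_zpow]
          show (1 : 𝒯.π N) ^ k = 1
          rw [one_zpow]
        show x = 1
        rw [← h2]
        exact h1.symm
  obtain ⟨M, ⟨e⟩⟩ := 𝒯.circleBundle N q hq
  let A : E := ⟨(i (HNNExtension.of ga), a), by rw [hE]; simp only [hri, hfa]⟩
  let B : E := ⟨(i (HNNExtension.of gb), b), by rw [hE]; simp only [hri, hfb]⟩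
  let S : E := ⟨(i HNNExtension.t, s), by rw [hE]; simp only [hri, hfs]⟩
  have hR : Rel A B S Z := by
    refine ⟨?_, hZc, ?_⟩
    · apply Subtype.ext
      refine Prod.ext ?_ ?_
      · show i (HNNExtension.of ga) * i (HNNExtension.of gb) =
          1 * (i (HNNExtension.of gb) * i (HNNExtension.of ga))
        rw [one_mul]
        exact (map_mul i _ _).symm.trans ((congrArg i base_comm).trans (map_mul i _ _))
      · exact hrel.comm
    · apply Subtype.ext
      refine Prod.ext ?_ ?_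
      · show i _ * i _ * (i _)⁻¹ = (i _) ^ 2
        rw [← map_inv, ← map_mul, ← map_mul, base_conj, map_pow]
      · exact hrel.conj
  have hR' : Rel (e A) (e B) (e S) (e Z) := hR.map e.toMonoidHom e.surjective
  have hn : ∀ n : ℕ, n ≠ 0 → (e Z) ^ n ≠ 1 := by
    intro n hn h
    rw [← map_pow] at h
    exact hZn n hn (e.injective (h.trans (map_one e).symm))
  refine ⟨M, e Z, hR'.central, hn, fun H hH h => hR'.mem_of_sq_mem H h, fun H hH h hreal => ?_⟩
  exact not_mem_zpowers_sq hn (𝒯.realised_torsionFree h hreal _ (hR'.mem_of_sq_mem H h) 2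
    two_ne_zero (Subgroup.mem_zpowers _))

/-- A simple model of the listed facts: groups in the place of manifolds. -/
def model : Manifolds.{1} where
  Mfd := (G : Type) × Group G
  π M := M.1
  grp M := M.2
  Realised M H g := letI := M.2
    ∀ h ∈ H, ∀ n : ℕ, n ≠ 0 → h ^ n ∈ Subgroup.zpowers g → h ∈ Subgroup.zpowers g
  realised_torsionFree _ h := h
  FiniteType _ _ := True
  finiteType_int := trivial
  finiteType_congr _ _ := trivial
  finiteType_prod _ _ := trivial
  finiteType_hnn _ _ _ _ _ := trivial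
  davis {G} hG _ := ⟨⟨G, hG⟩, MonoidHom.id G, MonoidHom.id G, fun _ => rfl⟩
  circleBundle _ {E} hE _ _ := ⟨⟨E, hE⟩, ⟨MulEquiv.refl E⟩⟩

end Pool.Agent.R901.CA
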